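import Pool.Agent.H86.BlD

namespace Pool.Agent.Results.MP_1502ad_an.NotExt
open Pool.Agent.H86.Bl

universe u

/-- `i` identifies `J` (isometrically, as a lattice) with a closed ideal of `A`. -/
def IsIdealEmb {J A : Type} [BL J] [BL A] (i : J →L[ℝ] A) : Prop :=
  LatHom i ∧ (∀ x, ‖i x‖ = ‖x‖) ∧ IsIdeal (LinearMap.range (i : J →ₗ[ℝ] A))

/-- `q` is a surjective lattice homomorphism and `B` carries the quotient norm. -/
def IsQuot {A B : Type} [BL A] [BL B] (q : A →L[ℝ] B) : Prop :=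
  LatHom q ∧ Function.Surjective q ∧ ∀ b, ‖b‖ = sInf {r | ∃ a, q a = b ∧ ‖a‖ = r}

/-- `0 → J → A → B → 0` is a short exact sequence of Banach lattices. -/
def IsExt {J A B : Type} [BL J] [BL A] [BL B] (i : J →L[ℝ] A) (q : A →L[ℝ] B) : Prop :=
  IsIdealEmb i ∧ IsQuot q ∧ ∀ a, q a = 0 ↔ ∃ x, i x = a

theorem result : ∃ (J A B : Type) (_ : BL J) (_ : BL A) (_ : BL B) (i : J →L[ℝ] A)
    (q : A →L[ℝ] B), IsExt i q ∧ SemiProj.{u} J ∧ SemiProj.{u} B ∧ ¬ SemiProj.{0} A := by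
  have hk : ∀ a : W × ℝ, a ∈ LinearMap.range ((ContinuousLinearMap.inl ℝ W ℝ : W →L[ℝ] W × ℝ) :
      W →ₗ[ℝ] W × ℝ) ↔ a.2 = 0 := fun a =>
    ⟨by rintro ⟨x, rfl⟩; rfl, fun h => ⟨a.1, Prod.ext rfl h.symm⟩⟩
  refine ⟨W, W × ℝ, ℝ, inferInstance, inferInstance, inferInstance, ContinuousLinearMap.inl ℝ W ℝ,
    ContinuousLinearMap.snd ℝ W ℝ, ⟨⟨fun p => Prod.ext rfl (abs_zero (α := ℝ)).symm, fun x => by simp,
      ?_, fun a ha b h => ?_⟩, ⟨fun _ => rfl, fun b => ⟨(0, b), rfl⟩, fun b => ?_⟩, fun a =>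
      (hk a).symm⟩, proj_W.semi, proj_real.semi, not_semi⟩
  · have : (LinearMap.range ((ContinuousLinearMap.inl ℝ W ℝ : W →L[ℝ] W × ℝ) :
      W →ₗ[ℝ] W × ℝ) : Set (W × ℝ)) = {a | a.2 = 0} := Set.ext hk
    rw [this]
    exact isClosed_eq continuous_snd continuous_const
  · have h2 : |b.2| ≤ |a.2| := h.2
    rw [(hk a).1 ha, abs_zero] at h2
    exact (hk b).2 (abs_nonpos_iff.1 h2)
  · symm
    refine IsLeast.csInf_eq ⟨⟨(0, b), rfl, by simp⟩, ?_⟩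
    rintro _ ⟨a, rfl, rfl⟩
    exact norm_snd_le a

end Pool.Agent.Results.MP_1502ad_an.NotExt
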